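import Pool.Agent.H554R2.Gap.Exist
import Pool.Agent.H554R2.Lin.CnfLin

/-!
# Random clauses, gap version
(the file `H554R2/Gap/CnfGap.lean`, with the lower bound `n ≤ D * J` for the number of clauses
recorded)
-/

set_option autoImplicit false

open Finset

namespace Pool.Agent.W934.G

open Pool.Agent.H554R2.Sem Pool.Agent.H554R2.Cnf Pool.Agent.H554R2.Lin Pool.Agent.H554R2.Gap

open Classical in
/-- random clauses, gap version -/
theorem exists_cnf_gap1 (Q N : ℕ) (hQ : 0 < Q) (hN : 0 < N) : ∃ D : ℕ, 0 < D ∧ ∀ n ≥ D,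
    ∃ (J : ℕ) (T : Fin J → Finset (Fin n × Bool)), n ≤ D * J ∧ J ≤ D * n ∧ (∀ j, (T j).card ≤ D) ∧
      2 ^ n ≤ 2 ^ (n / (4 * N) + 1) * (univ.filter (fun x : Pt n => ∀ j, Sat (T j) x)).card ∧
      NoRect (univ.filter (fun x : Pt n =>
        D * (univ.filter (fun j => ¬ Sat (T j) x)).card < J)) (2 ^ (n / (2 * Q))) := by
  classical
  obtain ⟨W, hW, hball⟩ := ball_le Q hQ
  obtain ⟨m, hm⟩ : ∃ m : ℕ, m = 2048 * N := ⟨_, rfl⟩
  obtain ⟨K, hK⟩ : ∃ K : ℕ, K = 2 * W * m := ⟨_, rfl⟩
  have h2K : 0 < 2 ^ K := by positivity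
  obtain ⟨E, hE⟩ : ∃ E : ℕ, E = 8 * Q * (m + 2) := ⟨_, rfl⟩
  obtain ⟨D, hD⟩ : ∃ D : ℕ, D = 16 * 2 ^ K + K + 256 * N + 2 * W + E + 16 := ⟨_, rfl⟩
  refine ⟨D, by omega, fun n hn => ?_⟩
  have hn1 : 0 < n := by omega
  obtain ⟨v, hv⟩ : ∃ v : ℕ, v = n / (128 * N) := ⟨_, rfl⟩
  obtain ⟨L, hL⟩ : ∃ L : ℕ, L = 4 * v := ⟨_, rfl⟩
  have hL1 : n ≤ 256 * N * v := by
    have h1 : n < 128 * N * (v + 1) := by rw [hv]; exact Nat.lt_mul_div_succ n (by omega)
    have h2 : 256 * N ≤ n := by omega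
    have h3 : 128 * N * (v + 1) = 128 * N * v + 128 * N := by ring
    have h4 : 256 * N * v = 128 * N * v + 128 * N * v := by ring
    omega
  have hL2 : 128 * N * v ≤ n := by rw [hv]; exact Nat.mul_div_le n (128 * N)
  have hL3 : 128 * v ≤ n := le_trans (Nat.mul_le_mul_right v (by omega)) hL2
  have hv0 : 0 < v := by
    rcases Nat.eq_zero_or_pos v with h | h
    · rw [h] at hL1; omega
    · exact h
  have hm0 : 0 < m := by omega
  set w := n / W with hw
  have hw1 : n ≤ 2 * W * w := by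
    have h1 : n < W * (w + 1) := Nat.lt_mul_div_succ n hW
    have h2 : 2 * W ≤ n := by omega
    nlinarith
  have hw2 : w ≤ n := Nat.div_le_self _ _
  have hmK : m ≤ K := by
    rw [hK]; nlinarith
  -- the parameters
  have c1 : m * (n - w) ^ K ≤ n ^ K := by
    rcases Nat.eq_or_lt_of_le hw2 with h | h
    · rw [h, Nat.sub_self, zero_pow (by omega)]; simp
    · have h1 : (0 : ℝ) < ((n - w : ℕ) : ℝ) := by
        have : 0 < n - w := by omega
        exact_mod_cast this
      have h2 : (n : ℝ) = ((n - w : ℕ) : ℝ) * (1 + (w : ℝ) / ((n - w : ℕ) : ℝ)) := by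
        rw [mul_add, mul_div_cancel₀ _ h1.ne']
        rw [Nat.cast_sub hw2]; ring
      have h3 := one_add_mul_le_pow (a := (w : ℝ) / ((n - w : ℕ) : ℝ))
        (by have : (0 : ℝ) ≤ (w : ℝ) / ((n - w : ℕ) : ℝ) := by positivity
            linarith) K
      have h4 : (m : ℝ) ≤ 1 + (K : ℝ) * ((w : ℝ) / ((n - w : ℕ) : ℝ)) := by
        have h5 : (m : ℝ) * ((n - w : ℕ) : ℝ) ≤ K * w := by
          have h6 : m * (n - w) ≤ K * w := by
            calc m * (n - w) ≤ m * n := Nat.mul_le_mul_left _ (Nat.sub_le _ _)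
              _ ≤ m * (2 * W * w) := Nat.mul_le_mul_left _ hw1
              _ = K * w := by rw [hK]; ring
          exact_mod_cast h6
        have h7 : (m : ℝ) ≤ (K : ℝ) * ((w : ℝ) / ((n - w : ℕ) : ℝ)) := by
          rw [← mul_div_assoc, le_div_iff₀ h1]; exact h5
        linarith
      have h8 : (m : ℝ) * ((n - w : ℕ) : ℝ) ^ K ≤ (n : ℝ) ^ K := by
        rw [h2, mul_pow, mul_comm]
        exact mul_le_mul_of_nonneg_left (h4.trans h3) (by positivity)
      exact_mod_cast h8
  have c2 : m ^ 2 ≤ 4 * 2 ^ K := by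
    have h1 : m ^ 2 ≤ 4 * 2 ^ m := by
      have : ∀ t : ℕ, t ^ 2 ≤ 4 * 2 ^ t := by
        intro t
        induction t with
        | zero => simp
        | succ t ih =>
          rcases Nat.lt_or_ge t 3 with h | h
          · interval_cases t <;> norm_num
          · rw [pow_succ 2 t]
            nlinarith
      exact this m
    exact h1.trans (Nat.mul_le_mul_left _ (Nat.pow_le_pow_right (by norm_num) hmK))
  have c3 : 2 * m * n + 8 * L + n + 3 ≤ m ^ 2 * v := by
    have h1 : m ^ 2 * v = 16384 * N * (256 * N * v) := by rw [hm]; ring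
    rw [h1]
    have h2 : 16384 * N * n ≤ 16384 * N * (256 * N * v) := Nat.mul_le_mul_left _ hL1
    have h3 : 2 * m * n = 4096 * N * n := by rw [hm]; ring
    rw [h3]
    have h5 : n ≤ N * n := Nat.le_mul_of_pos_left n hN
    have h6 : 16384 * N * n = 16384 * (N * n) := by ring
    have h7 : 4096 * N * n = 4096 * (N * n) := by ring
    omega
  have c4 : 2 ^ m * ∑ j ∈ range w, n.choose j < 2 ^ (n / (2 * Q)) := by
    have h1 := hball n
    have h2 : ((2 ^ m * ∑ j ∈ range w, n.choose j : ℕ) : ℝ) < ((2 ^ (n / (2 * Q)) : ℕ) : ℝ) := by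
      push_cast
      have h3 : ((∑ j ∈ range w, n.choose j : ℕ) : ℝ) = ∑ j ∈ range w, (n.choose j : ℝ) := by
        push_cast; rfl
      rw [h3] at h1
      have hQR : (0 : ℝ) < Q := by exact_mod_cast hQ
      calc (2 : ℝ) ^ m * ∑ j ∈ range w, (n.choose j : ℝ)
          ≤ (2 : ℝ) ^ m * (2 : ℝ) ^ ((n : ℝ) / (4 * Q)) :=
            mul_le_mul_of_nonneg_left h1 (by positivity)
        _ = (2 : ℝ) ^ ((m : ℝ) + (n : ℝ) / (4 * Q)) := by
            rw [Real.rpow_add (by norm_num), Real.rpow_natCast]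
        _ < (2 : ℝ) ^ (((n / (2 * Q) : ℕ) : ℝ)) := by
            apply Real.rpow_lt_rpow_of_exponent_lt (by norm_num)
            have h4 : n < 2 * Q * (n / (2 * Q) + 1) := Nat.lt_mul_div_succ n (by omega)
            have h5 : (n : ℝ) < 2 * Q * (((n / (2 * Q) : ℕ) : ℝ) + 1) := by exact_mod_cast h4
            have h6 : (8 * Q * (m + 2) : ℝ) ≤ n := by
              have : 8 * Q * (m + 2) ≤ n := by omega
              exact_mod_cast this
            have h7 : (n : ℝ) / (2 * Q) < ((n / (2 * Q) : ℕ) : ℝ) + 1 := by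
              rw [div_lt_iff₀ (by positivity)]; linarith
            have h8 : (m : ℝ) + 2 ≤ (n : ℝ) / (8 * Q) := by
              rw [le_div_iff₀ (by positivity)]; linarith
            have h9 : (n : ℝ) / (2 * Q) = (n : ℝ) / (4 * Q) + (n : ℝ) / (8 * Q) +
                (n : ℝ) / (8 * Q) := by field_simp; ring
            have h10 : (0 : ℝ) ≤ (m : ℝ) := Nat.cast_nonneg _
            linarith
        _ = (2 : ℝ) ^ (n / (2 * Q)) := Real.rpow_natCast _ _
    exact_mod_cast h2
  obtain ⟨T, hT1, hT2⟩ := exists_clauses_gap (J := 4 * L * 2 ^ K) hn1 (by omega) c2 hL rfl c1 c3 c4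
  have hfail : ∀ j (x : Pt n), Fails (T j) x ↔ ¬ Sat (univ.image (T j)) x := by
    intro j x
    unfold Fails Sat
    push Not
    constructor
    · intro h l hl
      obtain ⟨i, _, rfl⟩ := mem_image.1 hl
      exact h i
    · intro h i
      exact h _ (mem_image.2 ⟨i, mem_univ _, rfl⟩)
  have hJ : 4 * L * 2 ^ K = 16 * 2 ^ K * v := by rw [hL]; ring
  refine ⟨4 * L * 2 ^ K, fun j => univ.image (T j), ?_, ?_, ?_, ?_, ?_⟩
  · rw [hJ]
    refine hL1.trans ?_
    have h1 : v ≤ 16 * 2 ^ K * v := Nat.le_mul_of_pos_left v (by positivity)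
    exact Nat.mul_le_mul (by omega) h1
  · rw [hJ]
    calc 16 * 2 ^ K * v ≤ 16 * 2 ^ K * n := Nat.mul_le_mul_left _ (by omega)
      _ ≤ D * n := Nat.mul_le_mul_right _ (by omega)
  · intro j
    exact card_image_le.trans (by simp; omega)
  · have e1 : 8 * L + 1 ≤ n / (4 * N) + 1 := by
      have : 8 * L ≤ n / (4 * N) := by
        rw [Nat.le_div_iff_mul_le (by omega), hL]
        calc 8 * (4 * v) * (4 * N) = 128 * N * v := by ring
          _ ≤ n := hL2
      omega
    have e2 : (CF T).card = (univ.filter (fun x : Pt n => ∀ j, Sat (univ.image (T j)) x)).card := by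
      unfold CF
      congr 1
      ext x
      simp only [mem_filter, mem_univ, true_and]
      refine forall_congr' fun j => ?_
      rw [hfail, not_not]
    rw [← e2]
    exact hT1.trans (Nat.mul_le_mul_right _ (Nat.pow_le_pow_right (by norm_num) e1))
  · refine NoRect_mono ?_ hT2
    intro x hx
    simp only [mem_filter, mem_univ, true_and] at hx
    unfold CV
    rw [mem_filter]
    refine ⟨mem_univ _, ?_⟩
    have e3 : (univ.filter (fun j => Fails (T j) x)).card =
        (univ.filter (fun j => ¬ Sat (univ.image (T j)) x)).card := by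
      congr 1
      ext j
      simp only [mem_filter, mem_univ, true_and]
      exact hfail j x
    rw [e3]
    have hx1 := lt_of_lt_of_le hx (le_of_eq hJ)
    obtain ⟨c, hc⟩ : ∃ c : ℕ, c = (univ.filter (fun j => ¬ Sat (univ.image (T j)) x)).card :=
      ⟨_, rfl⟩
    have hx' : D * c < 16 * 2 ^ K * v := by rw [hc]; convert hx1
    rw [← hc]
    by_contra hcv
    push Not at hcv
    have : 16 * 2 ^ K * v ≤ D * c := Nat.mul_le_mul (by omega) hcv
    omega

end Pool.Agent.W934.G
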