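import Pool.Agent.W934.G.CnfGap1

/-!
# Bounded degree

The variables which occur in many clauses are given suitable values, so that every variable occurs
in a bounded number of the remaining clauses.
-/

set_option autoImplicit false

open Finset

namespace Pool.Agent.W934.G

open Pool.Agent.H554R2.Sem Pool.Agent.H554R2.Cnf Pool.Agent.H554R2.Lin Pool.Agent.H554R2.Gap

open Classical in
/-- the number of clauses in which the variable `i` occurs -/
noncomputable def dg {n J : ℕ} (T : Fin J → Finset (Fin n × Bool)) (i : Fin n) : ℕ :=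
  (univ.filter (fun j => ∃ l ∈ T j, l.1 = i)).card

theorem sum_dg {n J D : ℕ} (T : Fin J → Finset (Fin n × Bool)) (hT : ∀ j, (T j).card ≤ D) :
    ∑ i, dg T i ≤ D * J := by
  classical
  unfold dg
  have h1 : ∑ i : Fin n, (univ.filter (fun j => ∃ l ∈ T j, l.1 = i)).card =
      ∑ j : Fin J, (univ.filter (fun i : Fin n => ∃ l ∈ T j, l.1 = i)).card := by
    simp only [Finset.card_filter]
    exact Finset.sum_comm
  rw [h1]
  calc ∑ j : Fin J, (univ.filter (fun i : Fin n => ∃ l ∈ T j, l.1 = i)).card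
      ≤ ∑ _j : Fin J, D := by
        refine Finset.sum_le_sum fun j _ => ?_
        refine le_trans ?_ (hT j)
        have h2 : (univ.filter (fun i : Fin n => ∃ l ∈ T j, l.1 = i)) ⊆ (T j).image Prod.fst := by
          intro i hi
          obtain ⟨l, hl, rfl⟩ := (mem_filter.1 hi).2
          exact mem_image.2 ⟨l, hl, rfl⟩
        exact (card_le_card h2).trans card_image_le
    _ = D * J := by simp [mul_comm]

theorem card_high {n J D Δ : ℕ} (T : Fin J → Finset (Fin n × Bool)) (hT : ∀ j, (T j).card ≤ D) :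
    (univ.filter (fun i => Δ < dg T i)).card * Δ ≤ D * J := by
  classical
  refine le_trans ?_ (sum_dg T hT)
  calc (univ.filter (fun i => Δ < dg T i)).card * Δ
      = ∑ _i ∈ univ.filter (fun i => Δ < dg T i), Δ := by simp
    _ ≤ ∑ i ∈ univ.filter (fun i => Δ < dg T i), dg T i :=
        Finset.sum_le_sum fun i hi => (mem_filter.1 hi).2.le
    _ ≤ ∑ i, dg T i := Finset.sum_le_sum_of_subset (filter_subset _ _)

theorem card_image_mask_le {n : ℕ} (A : Finset (Fin n)) (S : Finset (Pt n)) :
    (S.image (mask A)).card ≤ 2 ^ A.card := by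
  classical
  rw [← Finset.card_powerset]
  apply Finset.card_le_card_of_injOn (fun x => A.filter (fun i => x i = true))
  · intro x _
    exact mem_coe.2 (mem_powerset.2 (filter_subset _ _))
  · intro x hx y hy hxy
    obtain ⟨x', _, rfl⟩ := mem_image.1 (mem_coe.1 hx)
    obtain ⟨y', _, rfl⟩ := mem_image.1 (mem_coe.1 hy)
    funext i
    by_cases hi : i ∈ A
    · have h1 := congrArg (fun s => i ∈ s) hxy
      simp only [mem_filter, hi, true_and, eq_iff_iff] at h1
      exact Bool.eq_iff_iff.2 h1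
    · simp [mask, hi]

theorem merge_invol {n : ℕ} (H : Finset (Fin n)) (c x : Pt n) :
    merge H (merge H c x) (merge H x c) = c ∧ merge H (merge H x c) (merge H c x) = x := by
  constructor
  · funext i
    by_cases hi : i ∈ H <;> simp [merge, hi]
  · funext i
    by_cases hi : i ∈ H <;> simp [merge, hi]

/-- some choice of the values in `H` is good -/
theorem exists_values {n : ℕ} (H : Finset (Fin n)) (Z : Finset (Pt n)) :
    ∃ c : Pt n, Z.card ≤ (univ.filter (fun x : Pt n => merge H c x ∈ Z)).card := by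
  classical
  by_contra hcon
  push Not at hcon
  have h1 : ∑ c : Pt n, (univ.filter (fun x : Pt n => merge H c x ∈ Z)).card =
      ∑ _c : Pt n, Z.card := by
    have e1 : ∑ c : Pt n, (univ.filter (fun x : Pt n => merge H c x ∈ Z)).card =
        (univ.filter (fun p : Pt n × Pt n => merge H p.1 p.2 ∈ Z)).card := by
      simp only [Finset.card_filter, Fintype.sum_prod_type]
    have e2 : (univ.filter (fun p : Pt n × Pt n => merge H p.1 p.2 ∈ Z)).card =
        (univ.filter (fun p : Pt n × Pt n => p.1 ∈ Z)).card := by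
      apply Finset.card_bij' (fun p _ => (merge H p.1 p.2, merge H p.2 p.1))
        (fun p _ => (merge H p.1 p.2, merge H p.2 p.1))
      · intro p hp
        exact mem_filter.2 ⟨mem_univ _, (mem_filter.1 hp).2⟩
      · intro p hp
        refine mem_filter.2 ⟨mem_univ _, ?_⟩
        simp only
        rw [(merge_invol H p.1 p.2).1]
        exact (mem_filter.1 hp).2
      · intro p _
        exact Prod.ext (merge_invol H p.1 p.2).1 (merge_invol H p.1 p.2).2
      · intro p _
        exact Prod.ext (merge_invol H p.1 p.2).1 (merge_invol H p.1 p.2).2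
    have e3 : (univ.filter (fun p : Pt n × Pt n => p.1 ∈ Z)).card = ∑ _c : Pt n, Z.card := by
      simp only [Finset.card_filter, Fintype.sum_prod_type]
      rw [Finset.sum_comm]
      simp
    rw [e1, e2, e3]
  have h2 : ∑ c : Pt n, (univ.filter (fun x : Pt n => merge H c x ∈ Z)).card <
      ∑ _c : Pt n, Z.card :=
    Finset.sum_lt_sum_of_nonempty univ_nonempty (fun c _ => hcon c)
  exact absurd h1 h2.ne

theorem card_image_merge {n : ℕ} (H A : Finset (Fin n)) (c : Pt n) (K : Finset (Pt n)) :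
    (K.image (mask A)).card ≤ 2 ^ H.card * ((K.image (merge H c)).image (mask A)).card := by
  classical
  have h1 : ((univ : Finset (Pt n)).image (mask H) ×ˢ
      ((K.image (merge H c)).image (mask A))).card ≤
      2 ^ H.card * ((K.image (merge H c)).image (mask A)).card := by
    rw [Finset.card_product]
    exact Nat.mul_le_mul_right _ (card_image_mask_le H univ)
  refine le_trans ?_ h1
  apply Finset.card_le_card_of_injOn (fun u => (mask H u, mask A (merge H c u)))
  · intro u hu
    obtain ⟨x, hx, rfl⟩ := mem_image.1 (mem_coe.1 hu)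
    refine mem_coe.2 (mem_product.2 ⟨mem_image.2 ⟨_, mem_univ _, rfl⟩, ?_⟩)
    refine mem_image.2 ⟨merge H c x, mem_image.2 ⟨x, hx, rfl⟩, ?_⟩
    funext i
    by_cases hi : i ∈ A <;> by_cases hj : i ∈ H <;> simp [mask, merge, hi, hj]
  · intro u hu v hv huv
    obtain ⟨x, _, rfl⟩ := mem_image.1 (mem_coe.1 hu)
    obtain ⟨y, _, rfl⟩ := mem_image.1 (mem_coe.1 hv)
    have h2 := congrArg Prod.fst huv
    have h3 := congrArg Prod.snd huv
    simp only at h2 h3
    funext i
    by_cases hi : i ∈ A
    · by_cases hj : i ∈ H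
      · have := congrFun h2 i
        simpa [mask, hj] using this
      · have := congrFun h3 i
        simpa [mask, merge, hi, hj] using this
    · simp [mask, hi]

theorem norect_merge {n m m' : ℕ} (H : Finset (Fin n)) (c : Pt n) (C C' : Finset (Pt n))
    (hC : ∀ x ∈ C', merge H c x ∈ C) (h : NoRect C m) (hm : 2 ^ H.card * m ≤ m') :
    NoRect C' m' := by
  classical
  intro A K hK
  have h1 : ∀ B : Finset (Fin n), ((K.image (merge H c)).image (mask B)).card < m →
      (K.image (mask B)).card < m' := by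
    intro B hB
    refine lt_of_le_of_lt (card_image_merge H B c K) (lt_of_lt_of_le ?_ hm)
    exact Nat.mul_lt_mul_of_pos_left hB (by positivity)
  refine (h A (K.image (merge H c)) ?_).imp (h1 A) (h1 Aᶜ)
  intro x hx y hy
  obtain ⟨x', hx', rfl⟩ := mem_image.1 hx
  obtain ⟨y', hy', rfl⟩ := mem_image.1 hy
  have e : merge A (merge H c x') (merge H c y') = merge H c (merge A x' y') := by
    funext i
    by_cases hi : i ∈ A <;> by_cases hj : i ∈ H <;> simp [merge, hi, hj]
  rw [e]
  exact hC _ (hK x' hx' y' hy')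

open Classical in
/-- random clauses, gap version, bounded degree -/
theorem exists_cnf_deg (Q N : ℕ) (hQ : 0 < Q) (hN : 0 < N) : ∃ D : ℕ, 0 < D ∧ ∀ n ≥ D,
    ∃ (J : ℕ) (T : Fin J → Finset (Fin n × Bool)), J ≤ D * n ∧ (∀ j, (T j).card ≤ D) ∧
      (∀ i, dg T i ≤ D) ∧
      2 ^ n ≤ 2 ^ (n / (4 * N) + 1) * (univ.filter (fun x : Pt n => ∀ j, Sat (T j) x)).card ∧
      NoRect (univ.filter (fun x : Pt n =>
        D * (univ.filter (fun j => ¬ Sat (T j) x)).card < n)) (2 ^ (n / (2 * Q))) := by
  classical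
  obtain ⟨D1, hD1, h1⟩ := exists_cnf_gap1 (2 * Q) N (by omega) hN
  obtain ⟨Δ, hΔ⟩ : ∃ Δ : ℕ, Δ = 4 * Q * D1 ^ 2 := ⟨_, rfl⟩
  obtain ⟨D, hD⟩ : ∃ D : ℕ, D = Δ + D1 ^ 2 + D1 + 1 := ⟨_, rfl⟩
  refine ⟨D, by omega, fun n hn => ?_⟩
  obtain ⟨J, T, hJ1, hJ2, hT, hZ, hNR⟩ := h1 n (by omega)
  obtain ⟨H, hH⟩ : ∃ H : Finset (Fin n), H = univ.filter (fun i => Δ < dg T i) := ⟨_, rfl⟩
  have hHc : H.card ≤ n / (4 * Q) := by
    rw [Nat.le_div_iff_mul_le (by omega)]
    have h2 : H.card * Δ ≤ D1 * J := by rw [hH]; exact card_high T hT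
    have h3 : D1 * J ≤ D1 ^ 2 * n := by
      calc D1 * J ≤ D1 * (D1 * n) := Nat.mul_le_mul_left _ hJ2
        _ = D1 ^ 2 * n := by ring
    have h4 : D1 ^ 2 * (H.card * (4 * Q)) ≤ D1 ^ 2 * n := by
      calc D1 ^ 2 * (H.card * (4 * Q)) = H.card * Δ := by rw [hΔ]; ring
        _ ≤ D1 ^ 2 * n := h2.trans h3
    exact Nat.le_of_mul_le_mul_left h4 (by positivity)
  obtain ⟨Z, hZd⟩ : ∃ Z : Finset (Pt n), Z = univ.filter (fun x : Pt n => ∀ j, Sat (T j) x) :=
    ⟨_, rfl⟩
  obtain ⟨c, hc⟩ := exists_values H Z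
  -- the clauses which are not satisfied by the values
  obtain ⟨J', e, hJ'⟩ : ∃ (J' : ℕ) (e : Fin J' ≃ {j : Fin J // ¬ ∃ l ∈ T j, l.1 ∈ H ∧ c l.1 = l.2}),
      J' ≤ J := by
    refine ⟨Fintype.card {j : Fin J // ¬ ∃ l ∈ T j, l.1 ∈ H ∧ c l.1 = l.2},
      (Fintype.equivFin _).symm, ?_⟩
    refine (Fintype.card_subtype_le _).trans ?_
    simp
  obtain ⟨T', hT'⟩ : ∃ T' : Fin J' → Finset (Fin n × Bool), ∀ j, T' j =
      (T (e j).1).filter (fun l => l.1 ∉ H) := ⟨_, fun _ => rfl⟩
  have hS1 : ∀ (x : Pt n) (j' : Fin J'), Sat (T (e j').1) (merge H c x) ↔ Sat (T' j') x := by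
    intro x j'
    constructor
    · rintro ⟨l, hl1, hl2⟩
      by_cases hlH : l.1 ∈ H
      · exfalso
        refine (e j').2 ⟨l, hl1, hlH, ?_⟩
        rw [← hl2]
        simp [merge, hlH]
      · refine ⟨l, ?_, ?_⟩
        · rw [hT', mem_filter]
          exact ⟨hl1, hlH⟩
        · rw [← hl2]
          simp [merge, hlH]
    · rintro ⟨l, hl1, hl2⟩
      rw [hT', mem_filter] at hl1
      refine ⟨l, hl1.1, ?_⟩
      rw [← hl2]
      simp [merge, hl1.2]
  have hS2 : ∀ (x : Pt n) (j : Fin J), ¬ Sat (T j) (merge H c x) → ∃ j', (e j').1 = j := by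
    intro x j hj
    have h2 : ¬ ∃ l ∈ T j, l.1 ∈ H ∧ c l.1 = l.2 := by
      rintro ⟨l, hl1, hl2, hl3⟩
      refine hj ⟨l, hl1, ?_⟩
      rw [← hl3]
      simp [merge, hl2]
    exact ⟨e.symm ⟨j, h2⟩, by simp⟩
  refine ⟨J', T', ?_, ?_, ?_, ?_, ?_⟩
  · exact hJ'.trans (hJ2.trans (Nat.mul_le_mul_right _ (by omega)))
  · intro j
    rw [hT']
    exact (card_filter_le _ _).trans ((hT _).trans (by omega))
  · intro i
    by_cases hi : i ∈ H
    · have : dg T' i = 0 := by
        unfold dg
        rw [Finset.card_eq_zero, Finset.filter_eq_empty_iff]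
        rintro j _ ⟨l, hl1, hl2⟩
        rw [hT', mem_filter] at hl1
        rw [← hl2] at hi
        exact hl1.2 hi
      omega
    · have h2 : dg T i ≤ Δ := by
        rw [hH] at hi
        by_contra hcon
        exact hi (mem_filter.2 ⟨mem_univ _, by omega⟩)
      have h3 : dg T' i ≤ dg T i := by
        unfold dg
        apply Finset.card_le_card_of_injOn (fun j => (e j).1)
        · intro j hj
          obtain ⟨l, hl1, hl2⟩ := (mem_filter.1 (mem_coe.1 hj)).2
          rw [hT', mem_filter] at hl1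
          exact mem_coe.2 (mem_filter.2 ⟨mem_univ _, l, hl1.1, hl2⟩)
        · intro j _ j' _ hjj
          exact e.injective (Subtype.ext hjj)
      omega
  · refine hZ.trans (Nat.mul_le_mul_left _ ?_)
    rw [← hZd]
    refine hc.trans (card_le_card ?_)
    intro x hx
    rw [mem_filter] at hx ⊢
    refine ⟨mem_univ _, fun j => ?_⟩
    rw [hZd, mem_filter] at hx
    exact (hS1 x j).1 (hx.2.2 _)
  · refine norect_merge H c _ _ ?_ hNR ?_
    · intro x hx
      rw [mem_filter] at hx ⊢
      refine ⟨mem_univ _, ?_⟩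
      have h2 : (univ.filter (fun j => ¬ Sat (T j) (merge H c x))).card ≤
          (univ.filter (fun j => ¬ Sat (T' j) x)).card := by
        have h3 : (univ.filter (fun j => ¬ Sat (T j) (merge H c x))) ⊆
            (univ.filter (fun j => ¬ Sat (T' j) x)).image (fun j => (e j).1) := by
          intro j hj
          have h4 := (mem_filter.1 hj).2
          obtain ⟨j', rfl⟩ := hS2 x j h4
          refine mem_image.2 ⟨j', mem_filter.2 ⟨mem_univ _, ?_⟩, rfl⟩
          rw [← hS1 x j']
          exact h4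
        exact (card_le_card h3).trans card_image_le
      have h5 : D1 * (D1 * (univ.filter (fun j => ¬ Sat (T j) (merge H c x))).card) < D1 * J := by
        calc D1 * (D1 * (univ.filter (fun j => ¬ Sat (T j) (merge H c x))).card)
            = D1 ^ 2 * (univ.filter (fun j => ¬ Sat (T j) (merge H c x))).card := by ring
          _ ≤ D * (univ.filter (fun j => ¬ Sat (T' j) x)).card :=
              Nat.mul_le_mul (by omega) h2
          _ < n := hx.2
          _ ≤ D1 * J := hJ1
      exact lt_of_mul_lt_mul_left h5 (Nat.zero_le _)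
    · rw [← pow_add]
      apply Nat.pow_le_pow_right (by norm_num)
      rw [Nat.le_div_iff_mul_le (by omega)]
      have h2 : n / (2 * (2 * Q)) = n / (4 * Q) := by ring_nf
      rw [h2]
      have h3 : n / (4 * Q) * (4 * Q) ≤ n := Nat.div_mul_le_self n (4 * Q)
      calc (H.card + n / (4 * Q)) * (2 * Q) ≤ (n / (4 * Q) + n / (4 * Q)) * (2 * Q) :=
            Nat.mul_le_mul_right _ (by omega)
        _ = n / (4 * Q) * (4 * Q) := by ring
        _ ≤ n := h3

end Pool.Agent.W934.G
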