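import Pool.Agent.W934.G.Deg
import Pool.Agent.H554R2.Gap.DetFinal

/-!
# Gap version for deterministic programs of length `k n`, clauses of bounded degree
-/

set_option autoImplicit false

open Finset

namespace Pool.Agent.W934.G

open Pool.Agent.H554R2.Sem Pool.Agent.H554R2.Coin Pool.Agent.H554R2.Cnf Pool.Agent.H554R2.Lin
  Pool.Agent.H554R2.Gap

theorem final_deg (k : ℕ) : ∃ D : ℕ, 0 < D ∧ ∀ n ≥ D,
    ∃ (J : ℕ) (T : Fin J → Finset (Fin n × Bool)), J ≤ D * n ∧ (∀ j, (T j).card ≤ D) ∧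
      (∀ i, dg T i ≤ D) ∧
      ∀ P : BP (Fin n) Bool, Fintype.card P.State < 2 ^ (n / D) →
        (∀ x l, P.Comp x l true → D * Nat.card {j // ¬ Sat (T j) x} < n) →
        2 ^ (n / D) * Nat.card {x // (∀ j, Sat (T j) x) ∧
            ∃ l, P.Comp x l true ∧ l.length ≤ k * n} <
          Nat.card {x : Pt n // ∀ j, Sat (T j) x} := by
  classical
  obtain ⟨Q, r, N, hQ, hr, hN, hmain⟩ := main_rect (k + 1)
  obtain ⟨D1, hD1, hcnf⟩ := exists_cnf_deg Q N hQ hN
  obtain ⟨E, hE⟩ : ∃ E : ℕ, E = 4 * N * (r + 3) := ⟨_, rfl⟩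
  obtain ⟨D, hD⟩ : ∃ D : ℕ, D = D1 * 3 + 1 + E + 4 * N + 2 * Q + r + 1 := ⟨_, rfl⟩
  have hD0 : 0 < D := by omega
  refine ⟨D, hD0, ?_⟩
  intro n hn
  obtain ⟨J, T, hJ, hT, hdeg, hCc, hCR⟩ := hcnf n (by omega)
  refine ⟨J, T, hJ.trans (Nat.mul_le_mul_right _ (by omega)),
    fun c => (hT c).trans (by omega), fun i => (hdeg i).trans (by omega), ?_⟩
  intro P hPs hPf
  by_contra hneg
  push Not at hneg
  set G : Finset (Pt n) := univ.filter (fun x => (∀ j, Sat (T j) x) ∧
    ∃ l, P.Comp x l true ∧ l.length ≤ k * n) with hG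
  have hGc : Nat.card {x // (∀ j, Sat (T j) x) ∧ ∃ l, P.Comp x l true ∧ l.length ≤ k * n} =
      G.card := by
    rw [Nat.card_eq_fintype_card, Fintype.card_subtype]
  set Z : Finset (Pt n) := univ.filter (fun x : Pt n => ∀ j, Sat (T j) x) with hZdef
  have hZ : Nat.card {x : Pt n // ∀ j, Sat (T j) x} = Z.card := by
    rw [Nat.card_eq_fintype_card, Fintype.card_subtype]
  rw [hGc, hZ] at hneg
  -- blocks
  set s := k * n / r + 1 with hs
  have hs1 : k * n ≤ r * s := by
    have := Nat.lt_mul_div_succ (k * n) hr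
    rw [hs]; exact this.le
  have hs2 : r * s ≤ (k + 1) * n := by
    have h1 := Nat.mul_div_le (k * n) r
    have h2 : r ≤ n := by omega
    rw [hs]; nlinarith
  obtain ⟨B, hB1, hB2⟩ := blocks (Pool.Agent.H554R2.Lin.BP.neg P) r s hr G (by
    intro x hx
    obtain ⟨_, l, hl, hl2⟩ := (Finset.mem_filter.1 hx).2
    exact ⟨l, (neg_comp P x l true).2 hl, hl2.trans hs1⟩)
  have hcard : Fintype.card (Pool.Agent.H554R2.Lin.BP.neg P).State = Fintype.card P.State := rfl
  rw [hcard] at hB1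
  -- the size
  have hnD : 1 ≤ n / D := (Nat.one_le_div_iff hD0).2 hn
  have hexp : (n / (4 * N) + 1) + (n / D) * (r + 2) ≤ n / N := by
    rw [Nat.le_div_iff_mul_le hN]
    have h1 : 4 * N * (n / (4 * N)) ≤ n := Nat.mul_div_le n (4 * N)
    have h2 : D * (n / D) ≤ n := Nat.mul_div_le n D
    have h3 : E * (n / D) ≤ D * (n / D) := Nat.mul_le_mul_right _ (by omega)
    have h4 : 4 * (((n / (4 * N) + 1) + (n / D) * (r + 2)) * N) ≤
        4 * N * (n / (4 * N)) + E * (n / D) := by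
      rw [hE]
      have h5 : N * 1 ≤ N * (n / D) := Nat.mul_le_mul_left _ hnD
      nlinarith
    omega
  have hKbig : 2 ^ n ≤ 2 ^ (n / N) * B.K.card := by
    calc 2 ^ n ≤ 2 ^ (n / (4 * N) + 1) * Z.card := hCc
      _ ≤ 2 ^ (n / (4 * N) + 1) * (2 ^ (n / D) * G.card) := Nat.mul_le_mul_left _ hneg
      _ ≤ 2 ^ (n / (4 * N) + 1) *
          (2 ^ (n / D) * ((2 ^ (n / D)) ^ (r + 1) * B.K.card)) := by
          apply Nat.mul_le_mul_left
          apply Nat.mul_le_mul_left
          refine hB1.trans (Nat.mul_le_mul_right _ ?_)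
          exact Nat.pow_le_pow_left hPs.le _
      _ = 2 ^ ((n / (4 * N) + 1) + (n / D) * (r + 2)) * B.K.card := by
          rw [← pow_mul, ← mul_assoc, ← mul_assoc, ← pow_add, ← pow_add]
          congr 2
          ring
      _ ≤ 2 ^ (n / N) * B.K.card :=
          Nat.mul_le_mul_right _ (Nat.pow_le_pow_right (by norm_num) hexp)
  obtain ⟨a, b, g, ha, hb, hga, hgb, ⟨R⟩⟩ := hmain n (by omega) s hs2 B hKbig
  set C : Finset (Pt n) := univ.filter (fun x : Pt n =>
        D1 * (univ.filter (fun j => ¬ Sat (T j) x)).card < n) with hCdef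
  have hKC : B.K ⊆ C := by
    intro x hx
    obtain ⟨l, hl⟩ := hB2 x hx
    have h1 := hPf x l ((neg_comp P x l true).1 hl)
    rw [hCdef, mem_filter]
    refine ⟨mem_univ _, lt_of_le_of_lt ?_ h1⟩
    have h2 : Nat.card {j // ¬ Sat (T j) x} = (univ.filter (fun j => ¬ Sat (T j) x)).card := by
      rw [Nat.card_eq_fintype_card, Fintype.card_subtype]
    rw [h2]
    exact Nat.mul_le_mul_right _ (by omega)
  have hlog : ∀ e : ℕ, n ≤ Q * e → 100 * g ≤ e → n / (2 * Q) ≤ e - g := by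
    intro e h1 h2
    have h3 : n / (2 * Q) ≤ e / 2 := by
      rw [Nat.div_le_iff_le_mul_add_pred (by omega)]
      have h4 : e < 2 * (e / 2) + 2 := by omega
      have h5 : Q * e ≤ Q * (2 * (e / 2) + 1) := Nat.mul_le_mul_left _ (by omega)
      have h6 : Q * (2 * (e / 2) + 1) = 2 * Q * (e / 2) + Q := by ring
      omega
    omega
  rcases norect_rect C B.K hKC hCR R with h | h
  · have h1 : 2 ^ (a - g) ≤ R.X.card := by
      have h2 := R.nX
      have h3 : 2 ^ g * 2 ^ (a - g) ≤ 2 ^ g * R.X.card := by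
        rw [← pow_add]
        have : g + (a - g) = a := by omega
        rw [this]; exact h2
      exact Nat.le_of_mul_le_mul_left h3 (by positivity)
    have h4 : 2 ^ (n / (2 * Q)) ≤ 2 ^ (a - g) := Nat.pow_le_pow_right (by norm_num) (hlog a ha hga)
    omega
  · have h1 : 2 ^ (b - g) ≤ R.Y.card := by
      have h2 := R.nY
      have h3 : 2 ^ g * 2 ^ (b - g) ≤ 2 ^ g * R.Y.card := by
        rw [← pow_add]
        have : g + (b - g) = b := by omega
        rw [this]; exact h2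
      exact Nat.le_of_mul_le_mul_left h3 (by positivity)
    have h4 : 2 ^ (n / (2 * Q)) ≤ 2 ^ (b - g) := Nat.pow_le_pow_right (by norm_num) (hlog b hb hgb)
    omega

end Pool.Agent.W934.G
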