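import Mathlib
import Pool.Agent.H554R2.Cnf.SatMain
import Pool.Agent.W934.G.Deg

/-!
# Evaluation of a CNF of bounded degree as an instance of 3-SAT: a reduction which preserves gaps
-/

set_option autoImplicit false

open Finset

namespace Pool.Agent.W934.G

open Pool.Agent.H554R2.Sem Pool.Agent.H554R2.Cnf

/-- The number of clauses of the instance `w` of 3-SAT which are falsified by the assignment
`α`. -/
noncomputable def viol {M ℓ : ℕ} (w : Idx M ℓ → Bool) (α : (Fin ℓ → Bool) → Bool) : ℕ :=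
  Nat.card {c : Fin M // ∀ p : Fin 3, α (fun j => w (c, p, some j)) ≠ w (c, p, none)}

/-- The signs in the clauses of an abstract instance. -/
def sg {n : ℕ} {Y : Type} (s : Fin n ⊕ Y → Fin 3 → Bool) (x : Pt n) (z : Fin n ⊕ Y) (q : Fin 3) :
    Bool :=
  match z with
  | Sum.inl i => if q = 0 then x i else s (Sum.inl i) q
  | Sum.inr y => s (Sum.inr y) q

theorem embed_gap {n M ℓ : ℕ} {X Y : Type} [Fintype X] [Fintype Y] (u : Y)
    (hM : n + Fintype.card Y ≤ M) (hℓ : Fintype.card X ≤ 2 ^ ℓ)
    (N : Fin n ⊕ Y → Fin 3 → X) (s : Fin n ⊕ Y → Fin 3 → Bool) (a : Fin n ↪ Fin M) :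
    ∃ b : Idx M ℓ → Bool, ∀ x : Pt n,
      (∀ β : X → Bool, (∀ z, ∃ q, β (N z q) = sg s x z q) →
        Sat3 (plug (fun i => sgn ℓ (a i)) b x)) ∧
      (∀ α : (Fin ℓ → Bool) → Bool, ∃ β : X → Bool,
        Nat.card {z // ∀ q, β (N z q) ≠ sg s x z q} ≤
          viol (plug (fun i => sgn ℓ (a i)) b x) α) := by
  classical
  have hcard1 : Fintype.card Y ≤ Fintype.card {c : Fin M // c ∉ univ.map a} := by
    rw [Fintype.card_subtype]
    have h2 : (univ.filter (fun c : Fin M => c ∉ univ.map a)) = (univ.map a)ᶜ := by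
      ext c
      simp
    rw [h2, Finset.card_compl, Finset.card_map, Finset.card_univ, Fintype.card_fin,
      Fintype.card_fin]
    omega
  obtain ⟨f⟩ := Function.Embedding.nonempty_of_card_le hcard1
  have hcard2 : Fintype.card X ≤ Fintype.card (Fin ℓ → Bool) := by simpa using hℓ
  obtain ⟨nm⟩ := Function.Embedding.nonempty_of_card_le hcard2
  have : Nonempty X := ⟨N (Sum.inr u) 0⟩
  have hfa : ∀ y i, a i ≠ (f y : Fin M) := by
    intro y i h
    have := (f y).2
    rw [← h] at this
    exact this (mem_map.2 ⟨i, mem_univ _, rfl⟩)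
  obtain ⟨ie, hie1, hie2, hie3⟩ : ∃ ie : Fin M → Fin n ⊕ Y, (∀ i, ie (a i) = Sum.inl i) ∧
      (∀ y, ie (f y) = Sum.inr y) ∧ ∀ c i, ie c = Sum.inl i → c = a i := by
    refine ⟨fun c => if h : ∃ i, a i = c then Sum.inl h.choose else
      if h' : ∃ y, (f y : Fin M) = c then Sum.inr h'.choose else Sum.inr u, ?_, ?_, ?_⟩
    · intro i
      have h : ∃ i', a i' = a i := ⟨i, rfl⟩
      simp only [dif_pos h]
      exact congrArg Sum.inl (a.injective h.choose_spec)
    · intro y
      have h : ¬ ∃ i, a i = (f y : Fin M) := fun ⟨i, hi⟩ => hfa y i hi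
      have h' : ∃ y', (f y' : Fin M) = f y := ⟨y, rfl⟩
      simp only [dif_neg h, dif_pos h']
      exact congrArg Sum.inr (f.injective (Subtype.ext h'.choose_spec))
    · intro c i h
      by_cases h1 : ∃ i', a i' = c
      · simp only [dif_pos h1] at h
        rw [← Sum.inl_injective h]
        exact h1.choose_spec.symm
      · simp only [dif_neg h1] at h
        split_ifs at h
  obtain ⟨b, hb1, hb2⟩ : ∃ b : Idx M ℓ → Bool,
      (∀ c q j, b (c, q, some j) = nm (N (ie c) q) j) ∧
      (∀ c q, b (c, q, none) = s (ie c) q) :=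
    ⟨fun v => match v with
      | (c, q, some j) => nm (N (ie c) q) j
      | (c, q, none) => s (ie c) q, fun _ _ _ => rfl, fun _ _ => rfl⟩
  have hp : Function.Injective (fun i => (sgn ℓ (a i) : Idx M ℓ)) :=
    fun i j h => a.injective (sgn_inj h)
  refine ⟨b, fun x => ?_⟩
  have hname : ∀ (c : Fin M) (q : Fin 3),
      (fun j => plug (fun i => sgn ℓ (a i)) b x (c, q, some j)) = nm (N (ie c) q) := by
    intro c q
    funext j
    rw [plug_other, hb1]
    intro i hi
    simp [sgn] at hi
  have hsign : ∀ (c : Fin M) (q : Fin 3),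
      plug (fun i => sgn ℓ (a i)) b x (c, q, none) = sg s x (ie c) q := by
    intro c q
    by_cases h : ∃ i, c = a i ∧ q = 0
    · obtain ⟨i, rfl, rfl⟩ := h
      rw [hie1]
      simp only [sg, if_true]
      exact plug_apply _ hp b x i
    · rw [plug_other, hb2]
      · cases hz : ie c with
        | inl i =>
          have h1 := hie3 c i hz
          have h2 : q ≠ 0 := fun h2 => h ⟨i, h1, h2⟩
          simp only [sg, if_neg h2]
        | inr y => rfl
      · intro i hi
        simp only [sgn, Prod.mk.injEq] at hi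
        exact h ⟨i, hi.1.symm, hi.2.1.symm⟩
  constructor
  · intro β hβ
    refine ⟨fun w => β (Function.invFun nm w), fun c => ?_⟩
    obtain ⟨q, hq⟩ := hβ (ie c)
    refine ⟨q, ?_⟩
    rw [hname, hsign]
    simp only
    rw [Function.leftInverse_invFun nm.injective]
    exact hq
  · intro α
    refine ⟨fun z => α (nm z), ?_⟩
    unfold viol
    refine Nat.card_le_card_of_injective (fun z => ⟨Sum.elim a (fun y => (f y : Fin M)) z.1, ?_⟩) ?_
    · have hz : ie (Sum.elim a (fun y => (f y : Fin M)) z.1) = z.1 := by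
        rcases z with ⟨i | y, hz⟩
        · exact hie1 i
        · exact hie2 y
      intro p
      rw [hname, hsign, hz]
      exact z.2 p
    · rintro ⟨z, hz⟩ ⟨z', hz'⟩ h
      have h1 : Sum.elim a (fun y => (f y : Fin M)) z = Sum.elim a (fun y => (f y : Fin M)) z' :=
        congrArg Subtype.val h
      have h2 : ∀ z'' : Fin n ⊕ Y, ie (Sum.elim a (fun y => (f y : Fin M)) z'') = z'' := by
        rintro (i | y)
        · exact hie1 i
        · exact hie2 y
      apply Subtype.ext
      simp only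
      rw [← h2 z, h1, h2 z']

section

variable {n D J : ℕ} (T : Fin J → Finset (Fin n × Bool))

/-- The variables. -/
abbrev XX (n D J : ℕ) : Type := (Fin n ⊕ Fin n) ⊕ Fin J × Fin (D + 1)

/-- The clauses which do not depend on the point. -/
abbrev YY (n D J : ℕ) : Type := Fin n ⊕ Fin J × Fin (D + 2)

/-- The literals. -/
noncomputable def lt (z : Fin n ⊕ YY n D J) (q : Fin 3) : XX n D J × Bool :=
  match z with
  | Sum.inl i => if q = 0 then (Sum.inl (Sum.inl i), false) else (Sum.inl (Sum.inr i), true)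
  | Sum.inr (Sum.inl i) => (Sum.inl (Sum.inr i), false)
  | Sum.inr (Sum.inr (j, t)) =>
    if t.val = 0 then (Sum.inr (j, 0), false)
    else if t.val = D + 1 then (Sum.inr (j, Fin.last D), true)
    else if q = 0 then (Sum.inr (j, Fin.ofNat (D + 1) t.val), false)
    else if q = 1 then (Sum.inr (j, Fin.ofNat (D + 1) (t.val - 1)), true)
    else if h : t.val - 1 < (T j).toList.length then
      (Sum.inl (Sum.inl ((T j).toList[t.val - 1]).1), ((T j).toList[t.val - 1]).2)
    else (Sum.inr (j, Fin.ofNat (D + 1) (t.val - 1)), true)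

/-- all clauses are satisfied by a suitable assignment -/
theorem lt_complete (hT : ∀ j, (T j).card ≤ D) (x : Pt n) (hx : ∀ j, Sat (T j) x) :
    ∃ β : XX n D J → Bool, ∀ z, ∃ q, β (lt T z q).1 = sg (fun z q => (lt T z q).2) x z q := by
  classical
  refine ⟨fun v => match v with
    | Sum.inl (Sum.inl i) => x i
    | Sum.inl (Sum.inr _) => false
    | Sum.inr (j, t) => decide (∃ l ∈ (T j).toList.take t.val, x l.1 = l.2), ?_⟩
  rintro (i | i | ⟨j, t⟩)
  · exact ⟨0, by simp [lt, sg]⟩
  · exact ⟨0, by simp [lt, sg]⟩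
  · have hlen : (T j).toList.length ≤ D := by rw [Finset.length_toList]; exact hT j
    have htD := t.2
    by_cases h0 : t.val = 0
    · exact ⟨0, by simp [lt, sg, h0]⟩
    by_cases h1 : t.val = D + 1
    · refine ⟨0, ?_⟩
      simp only [lt, sg, if_neg h0, if_pos h1]
      rw [decide_eq_true_iff]
      obtain ⟨l, hl, hxl⟩ := hx j
      refine ⟨l, ?_, hxl⟩
      rw [Fin.val_last, List.take_of_length_le hlen]
      exact Finset.mem_toList.2 hl
    have hv : (Fin.ofNat (D + 1) t.val).val = t.val := by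
      simp only [Fin.ofNat]
      exact Nat.mod_eq_of_lt (by omega)
    have hv' : (Fin.ofNat (D + 1) (t.val - 1)).val = t.val - 1 := by
      simp only [Fin.ofNat]
      exact Nat.mod_eq_of_lt (by omega)
    by_cases h2 : ∃ l ∈ (T j).toList.take t.val, x l.1 = l.2
    · by_cases h3 : ∃ l ∈ (T j).toList.take (t.val - 1), x l.1 = l.2
      · refine ⟨1, ?_⟩
        simp only [lt, sg, if_neg h0, if_neg h1, one_ne_zero, if_false, if_true]
        rw [decide_eq_true_iff, hv']
        exact h3
      · refine ⟨2, ?_⟩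
        have h20 : (2 : Fin 3) ≠ 0 := by decide
        have h21 : (2 : Fin 3) ≠ 1 := by decide
        obtain ⟨l, hl, hxl⟩ := h2
        have e : t.val = (t.val - 1) + 1 := by omega
        rw [e] at hl
        by_cases h4 : t.val - 1 < (T j).toList.length
        · simp only [lt, sg, if_neg h0, if_neg h1, if_neg h20, if_neg h21, dif_pos h4]
          rw [List.take_succ_eq_append_getElem h4, List.mem_append] at hl
          rcases hl with hl | hl
          · exact absurd ⟨l, hl, hxl⟩ h3
          · rw [List.mem_singleton] at hl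
            rw [← hl]
            exact hxl
        · exfalso
          apply h3
          refine ⟨l, ?_, hxl⟩
          rw [List.take_of_length_le (by omega)] at hl ⊢
          exact hl
    · refine ⟨0, ?_⟩
      simp only [lt, sg, if_neg h0, if_neg h1, if_true]
      rw [decide_eq_false_iff_not, hv]
      exact h2

/-- a violated clause near a violated test -/
theorem lt_sound (hT : ∀ j, (T j).card ≤ D) (x : Pt n) (β : XX n D J → Bool) (j : Fin J)
    (hj : ¬ Sat (T j) x) : ∃ z, (∀ q, β (lt T z q).1 ≠ sg (fun z q => (lt T z q).2) x z q) ∧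
      ((∃ t, z = Sum.inr (Sum.inr (j, t))) ∨
        ∃ i, (∃ l ∈ T j, l.1 = i) ∧ (z = Sum.inl i ∨ z = Sum.inr (Sum.inl i))) := by
  classical
  by_contra hcon
  push Not at hcon
  have h1 : ∀ t : Fin (D + 2), ∃ q, β (lt T (Sum.inr (Sum.inr (j, t))) q).1 =
      (lt T (Sum.inr (Sum.inr (j, t))) q).2 := by
    intro t
    by_contra h
    push Not at h
    exact (hcon (Sum.inr (Sum.inr (j, t))) h).1 t rfl
  have hlen : (T j).toList.length ≤ D := by rw [Finset.length_toList]; exact hT j
  have h20 : (2 : Fin 3) ≠ 0 := by decide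
  have h21 : (2 : Fin 3) ≠ 1 := by decide
  have h2 : ∃ l ∈ T j, β (Sum.inl (Sum.inl l.1)) = l.2 := by
    by_contra h
    push Not at h
    have key : ∀ t : ℕ, t ≤ D → β (Sum.inr (j, Fin.ofNat (D + 1) t)) = false := by
      intro t
      induction t with
      | zero =>
        intro _
        obtain ⟨q, hq⟩ := h1 0
        simpa [lt] using hq
      | succ t ih =>
        intro ht
        have ih' := ih (by omega)
        obtain ⟨q, hq⟩ := h1 ⟨t + 1, by omega⟩
        have e0 : ¬ ((⟨t + 1, by omega⟩ : Fin (D + 2)).val = 0) := by simp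
        have e1 : ¬ ((⟨t + 1, by omega⟩ : Fin (D + 2)).val = D + 1) := by simp; omega
        have e2 : (⟨t + 1, by omega⟩ : Fin (D + 2)).val - 1 = t := by simp
        simp only [lt, if_neg e0, if_neg e1] at hq
        by_cases hq0 : q = 0
        · simp only [if_pos hq0] at hq
          exact hq
        by_cases hq1 : q = 1
        · simp only [if_neg hq0, if_pos hq1] at hq
          rw [e2, ih'] at hq
          exact absurd hq (by simp)
        simp only [if_neg hq0, if_neg hq1] at hq
        by_cases h4 : t < (T j).toList.length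
        · rw [dif_pos (by rw [e2]; exact h4)] at hq
          exact absurd hq (h _ (Finset.mem_toList.1 (List.getElem_mem _)))
        · rw [dif_neg (by rw [e2]; exact h4)] at hq
          rw [e2, ih'] at hq
          exact absurd hq (by simp)
    obtain ⟨q, hq⟩ := h1 (Fin.last (D + 1))
    have e0 : ¬ ((Fin.last (D + 1)).val = 0) := by simp
    have e1 : ((Fin.last (D + 1)).val = D + 1) := by simp
    simp only [lt, if_neg e0, if_pos e1] at hq
    have h5 := key D le_rfl
    have e3 : Fin.ofNat (D + 1) D = Fin.last D := by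
      apply Fin.ext
      simp [Fin.ofNat]
    rw [e3, hq] at h5
    exact absurd h5 (by simp)
  obtain ⟨l, hl, hβl⟩ := h2
  have hxl : x l.1 ≠ l.2 := fun h => hj ⟨l, hl, h⟩
  have h3 : ∃ q, β (lt T (Sum.inl l.1 : Fin n ⊕ YY n D J) q).1 =
      sg (fun (z : Fin n ⊕ YY n D J) q => (lt T z q).2) x (Sum.inl l.1) q := by
    by_contra h
    push Not at h
    exact ((hcon (Sum.inl l.1) h).2 l.1 ⟨l, hl, rfl⟩).1 rfl
  have h4 : ∃ q, β (lt T (Sum.inr (Sum.inl l.1) : Fin n ⊕ YY n D J) q).1 =
      sg (fun (z : Fin n ⊕ YY n D J) q => (lt T z q).2) x (Sum.inr (Sum.inl l.1)) q := by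
    by_contra h
    push Not at h
    exact ((hcon (Sum.inr (Sum.inl l.1)) h).2 l.1 ⟨l, hl, rfl⟩).2 rfl
  obtain ⟨q', hq'⟩ := h4
  have hz : β (Sum.inl (Sum.inr l.1)) = false := by simpa [lt, sg] using hq'
  obtain ⟨q, hq⟩ := h3
  by_cases hq0 : q = 0
  · subst hq0
    simp only [lt, sg, if_true] at hq
    rw [hβl] at hq
    exact hxl hq.symm
  · simp only [lt, sg, if_neg hq0] at hq
    rw [hz] at hq
    exact absurd hq (by simp)

theorem lt_count (hT : ∀ j, (T j).card ≤ D) (hdeg : ∀ i, dg T i ≤ D) (x : Pt n)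
    (β : XX n D J → Bool) : Nat.card {j // ¬ Sat (T j) x} ≤ (D + 1) *
      Nat.card {z : Fin n ⊕ YY n D J //
        ∀ q, β (lt T z q).1 ≠ sg (fun z q => (lt T z q).2) x z q} := by
  classical
  rw [Nat.card_eq_fintype_card, Fintype.card_subtype, Nat.card_eq_fintype_card,
    Fintype.card_subtype]
  set V := univ.filter (fun z : Fin n ⊕ YY n D J =>
    ∀ q, β (lt T z q).1 ≠ sg (fun z q => (lt T z q).2) x z q) with hV
  obtain ⟨R, hR⟩ : ∃ R : Fin n ⊕ YY n D J → Finset (Fin J), ∀ z, R z =
      univ.filter (fun j => (∃ t, z = Sum.inr (Sum.inr (j, t))) ∨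
        ∃ i, (∃ l ∈ T j, l.1 = i) ∧ (z = Sum.inl i ∨ z = Sum.inr (Sum.inl i))) :=
    ⟨_, fun _ => rfl⟩
  have h1 : (univ.filter (fun j => ¬ Sat (T j) x)) ⊆ V.biUnion R := by
    intro j hj
    obtain ⟨z, hz1, hz2⟩ := lt_sound T hT x β j (mem_filter.1 hj).2
    refine mem_biUnion.2 ⟨z, mem_filter.2 ⟨mem_univ _, hz1⟩, ?_⟩
    rw [hR]
    exact mem_filter.2 ⟨mem_univ _, hz2⟩
  have h2 : ∀ z ∈ V, (R z).card ≤ D + 1 := by
    intro z _
    rw [hR]
    have hdg : ∀ i, (univ.filter (fun j => ∃ l ∈ T j, l.1 = i)).card ≤ D + 1 :=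
      fun i => (hdeg i).trans (Nat.le_succ _)
    rcases z with i | i | ⟨j, t⟩
    · refine (card_le_card ?_).trans (hdg i)
      intro j hj
      rcases (mem_filter.1 hj).2 with ⟨t, ht⟩ | ⟨i', h3, h4 | h4⟩
      · exact absurd ht (by simp)
      · rw [Sum.inl_injective h4]
        exact mem_filter.2 ⟨mem_univ _, h3⟩
      · exact absurd h4 (by simp)
    · refine (card_le_card ?_).trans (hdg i)
      intro j hj
      rcases (mem_filter.1 hj).2 with ⟨t, ht⟩ | ⟨i', h3, h4 | h4⟩
      · exact absurd ht (by simp)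
      · exact absurd h4 (by simp)
      · rw [Sum.inl_injective (Sum.inr_injective h4)]
        exact mem_filter.2 ⟨mem_univ _, h3⟩
    · have h3 : (univ.filter (fun j' => (∃ t', (Sum.inr (Sum.inr (j, t)) : Fin n ⊕ YY n D J) =
          Sum.inr (Sum.inr (j', t'))) ∨ ∃ i, (∃ l ∈ T j', l.1 = i) ∧
          ((Sum.inr (Sum.inr (j, t)) : Fin n ⊕ YY n D J) = Sum.inl i ∨
            (Sum.inr (Sum.inr (j, t)) : Fin n ⊕ YY n D J) = Sum.inr (Sum.inl i)))) ⊆ {j} := by
        intro j' hj'
        rcases (mem_filter.1 hj').2 with ⟨t', ht'⟩ | ⟨i', h3, h4 | h4⟩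
        · have := Sum.inr_injective (Sum.inr_injective ht')
          rw [mem_singleton]
          exact (congrArg Prod.fst this).symm
        · exact absurd h4 (by simp)
        · exact absurd h4 (by simp)
      refine (card_le_card h3).trans ?_
      simp
  calc (univ.filter (fun j => ¬ Sat (T j) x)).card ≤ (V.biUnion R).card := card_le_card h1
    _ ≤ V.card * (D + 1) := Finset.card_biUnion_le_card_mul _ _ _ h2
    _ = (D + 1) * V.card := mul_comm _ _

end

/-- The reduction. -/
theorem reduction_gap {n D J M ℓ : ℕ} (hn : 0 < n) (T : Fin J → Finset (Fin n × Bool))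
    (hT : ∀ j, (T j).card ≤ D) (hdeg : ∀ i, dg T i ≤ D) (hM : 2 * n + J * (D + 2) ≤ M)
    (hℓ : 2 * n + J * (D + 1) ≤ 2 ^ ℓ) (a : Fin n ↪ Fin M) :
    ∃ b : Idx M ℓ → Bool, ∀ x : Pt n,
      ((∀ j, Sat (T j) x) → Sat3 (plug (fun i => sgn ℓ (a i)) b x)) ∧
      ∀ α, Nat.card {j // ¬ Sat (T j) x} ≤
        (D + 1) * viol (plug (fun i => sgn ℓ (a i)) b x) α := by
  classical
  obtain ⟨b, hb⟩ := embed_gap (n := n) (M := M) (ℓ := ℓ) (X := XX n D J) (Y := YY n D J)
    (Sum.inl ⟨0, hn⟩) (by
      simp only [Fintype.card_sum, Fintype.card_prod, Fintype.card_fin]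
      omega) (by
      simp only [Fintype.card_sum, Fintype.card_prod, Fintype.card_fin]
      omega) (fun z q => (lt T z q).1) (fun z q => (lt T z q).2) a
  refine ⟨b, fun x => ⟨fun hx => ?_, fun α => ?_⟩⟩
  · obtain ⟨β, hβ⟩ := lt_complete T hT x hx
    exact (hb x).1 β hβ
  · obtain ⟨β, hβ⟩ := (hb x).2 α
    exact (lt_count T hT hdeg x β).trans (Nat.mul_le_mul_left _ hβ)

end Pool.Agent.W934.G
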