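import Pool.Agent.W934.G.Det
import Pool.Agent.W934.G.Red
import Pool.Agent.H538R4.SP.Sat

/-!
# Gap 3-SAT is hard for randomised branching programs in linear time
-/

set_option autoImplicit false

open Finset

namespace Pool.Agent.W934.G

open Pool.Agent.H554R2.Sem Pool.Agent.H554R2.Coin Pool.Agent.H554R2.Cnf Pool.Agent.H538R4.SP

theorem finalGap (k : ℕ) : ∃ D : ℕ, 0 < D ∧ ∀ (n M ℓ : ℕ) (a : Fin n ↪ Fin M), D * n ≤ M →
    D * n ≤ 2 ^ ℓ → ∃ b : Idx M ℓ → Bool, ∀ (R : Type) [Fintype R] [Nonempty R]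
      (U : R → BP (Idx M ℓ) Bool),
      (∀ r (x : Pt n) L, (U r).Comp (plug (fun i => sgn ℓ (a i)) b x) L true →
        ∃ α, D * viol (plug (fun i => sgn ℓ (a i)) b x) α < n) →
      (∀ x : Pt n, Sat3 (plug (fun i => sgn ℓ (a i)) b x) → Nat.card R ≤ 2 ^ (n / D) *
        Nat.card {r // ∃ L, (U r).Comp (plug (fun i => sgn ℓ (a i)) b x) L true ∧
          ∑ i, L.count (sgn ℓ (a i)) ≤ k * n}) →
      ∃ r, 2 ^ (n / D) ≤ Fintype.card (U r).State := by
  classical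
  obtain ⟨D1, hD1, h1⟩ := final_deg k
  refine ⟨(D1 + 2) * (D1 + 2), by positivity, fun n M ℓ a hM hℓ => ?_⟩
  set D := (D1 + 2) * (D1 + 2) with hD
  have hD1D : D1 ≤ D := by rw [hD]; nlinarith
  rcases Nat.lt_or_ge n D1 with hn | hn
  · have h3 : n / D = 0 := Nat.div_eq_of_lt (by omega)
    rw [h3]
    exact ⟨fun _ => true, fun R _ _ U _ _ =>
      ⟨Classical.arbitrary R, Fintype.card_pos_iff.2 ⟨(U _).start⟩⟩⟩
  have hp : Function.Injective (fun i => (sgn ℓ (a i) : Idx M ℓ)) :=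
    fun i j h => a.injective (sgn_inj h)
  obtain ⟨J, T, hJ, hT, hdeg, hP⟩ := h1 n hn
  have e0 : D * n = 2 * n + (D1 * n) * (D1 + 2) + (2 * D1 + 2) * n := by rw [hD]; ring
  have e1 : J * (D1 + 2) ≤ (D1 * n) * (D1 + 2) := Nat.mul_le_mul_right _ hJ
  have e2 : J * (D1 + 1) ≤ J * (D1 + 2) := Nat.mul_le_mul_left _ (by omega)
  obtain ⟨b, hb⟩ := reduction_gap (by omega) T hT hdeg (M := M) (ℓ := ℓ) (by omega) (by omega) a
  refine ⟨b, fun R _ _ U hU hl => ?_⟩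
  obtain ⟨r, hr⟩ := average (fun x : Pt n => ∀ j, Sat (T j) x)
    (fun r (x : Pt n) => (∀ j, Sat (T j) x) ∧
      ∃ L, (U r).Comp (plug (fun i => sgn ℓ (a i)) b x) L true ∧
          ∑ i, L.count (sgn ℓ (a i)) ≤ k * n) (n / D) (by
      intro x hx
      refine (hl x ((hb x).1 hx)).trans (Nat.mul_le_mul_left _ ?_)
      exact (Nat.card_congr (Equiv.subtypeEquivRight (fun r => by simp only [hx, implies_true,
        true_and]))).le)
  refine ⟨r, ?_⟩
  by_contra hlt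
  push Not at hlt
  have h2 : n / D ≤ n / D1 := Nat.div_le_div_left hD1D hD1
  have h3 := hP (fix (fun i => (sgn ℓ (a i) : Idx M ℓ)) b (U r))
    (lt_of_lt_of_le (show Fintype.card (fix (fun i => (sgn ℓ (a i) : Idx M ℓ)) b (U r)).State <
      2 ^ (n / D) from hlt) (Nat.pow_le_pow_right (by norm_num) h2)) (by
    rintro x l ⟨v, h4, h5⟩
    obtain ⟨L, v', h6, h7⟩ := fix_sound hp b (U r) x l _ v h4 h5
    obtain ⟨α, hα⟩ := hU r x L ⟨v', h6, h7⟩
    have h8 := (hb x).2 α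
    calc D1 * Nat.card {j // ¬ Sat (T j) x}
        ≤ D1 * ((D1 + 1) * viol (plug (fun i => sgn ℓ (a i)) b x) α) := Nat.mul_le_mul_left _ h8
      _ = (D1 * (D1 + 1)) * viol (plug (fun i => sgn ℓ (a i)) b x) α := by ring
      _ ≤ D * viol (plug (fun i => sgn ℓ (a i)) b x) α :=
          Nat.mul_le_mul_right _ (by rw [hD]; nlinarith)
      _ < n := hα)
  have h9 : Nat.card {x : Pt n // (∀ j, Sat (T j) x) ∧
      ∃ L, (U r).Comp (plug (fun i => sgn ℓ (a i)) b x) L true ∧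
        ∑ i, L.count (sgn ℓ (a i)) ≤ k * n} ≤
      Nat.card {x : Pt n // (∀ j, Sat (T j) x) ∧
        ∃ l, (fix (fun i => (sgn ℓ (a i) : Idx M ℓ)) b (U r)).Comp x l true ∧
          l.length ≤ k * n} := by
    refine Nat.card_le_card_of_injective (fun y => ⟨y.1, y.2.1, ?_⟩) ?_
    · obtain ⟨L, ⟨v, h4, h5⟩, h6⟩ := y.2.2
      obtain ⟨v', h7, h8⟩ := fix_complete hp b (U r) y.1 true L _ v h4 h5
      exact ⟨L.filterMap (idx _), ⟨v', h7, h8⟩, by rw [idx_length _ hp]; exact h6⟩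
    · intro y z hyz
      exact Subtype.ext (by simpa using hyz)
  have h10 := hr.trans (Nat.mul_le_mul (Nat.pow_le_pow_right (n := 2) (by norm_num) h2) h9)
  exact absurd h10 (not_le.2 h3)

end Pool.Agent.W934.G
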